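import Pool.Agent.H62.BS.Defs

/-!
Subshifts of finite type (statement-level definition for `MP_6540cb_lc`).
-/

open MeasureTheory Topology Filter Set
open Pool.Agent.H62.BS

namespace Pool.Agent.H89.MAL

/-- `S` is a subshift of finite type: the set of all configurations avoiding a finite set `F` of
finite patterns (a pattern is a finite set `P.1 ⊆ ℤ^d` with a map `P.2 : P.1 → A`). -/
def IsSFT {d : ℕ} {A : Type} (S : Set (Conf d A)) : Prop :=
  ∃ F : Set (Σ D : Finset (G d), (D → A)), F.Finite ∧
    S = {x | ∀ P ∈ F, ∀ g : G d, ¬ ∀ h : P.1, x (h + g) = P.2 h}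

end Pool.Agent.H89.MAL
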