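import Pool.Agent.H89.MAL.Pivot
import Pool.Agent.H89.LCL.LangSI

/-!
Homoclinic classes and the strongly irreducible core of a subshift closed under a Maltsev
operation.
-/

open MeasureTheory Topology Filter Set
open Pool.Agent.H62.BS

namespace Pool.Agent.H89.MAL

variable {d : ℕ} {A : Type}

/-- The patterns of `x` and `y` on `K` are the patterns of two configurations of `S` which differ
in finitely many cells only. -/
def theta (S : Set (Conf d A)) (K : Finset (G d)) (x y : Conf d A) : Prop :=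
  ∃ u ∈ S, ∃ u' ∈ S, (diff u u').Finite ∧ (∀ g ∈ K, u g = x g) ∧ ∀ g ∈ K, u' g = y g

theorem diff_comm (x y : Conf d A) : diff x y = diff y x := by
  ext g
  simp only [diff, mem_ofPred_eq, ne_comm]

theorem theta_of_homo {S : Set (Conf d A)} (K : Finset (G d)) {x y : Conf d A} (hx : x ∈ S)
    (hy : y ∈ S) (h : (diff x y).Finite) : theta S K x y :=
  ⟨x, hx, y, hy, h, fun _ _ => rfl, fun _ _ => rfl⟩

theorem theta_symm {S : Set (Conf d A)} {K : Finset (G d)} {x y : Conf d A}
    (h : theta S K x y) : theta S K y x := by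
  obtain ⟨u, hu, u', hu', hf, h1, h2⟩ := h
  exact ⟨u', hu', u, hu, by rw [diff_comm]; exact hf, h2, h1⟩

theorem diff_subset_of_maltsev {m : A → A → A → A} (hm : IsMaltsev m) (a b c e : Conf d A) :
    diff (fun g => m (a g) (b g) (c g)) e ⊆ diff a b ∪ diff c e := by
  intro g hg
  by_contra hcon
  rw [mem_union, not_or] at hcon
  apply hg
  have h1 : a g = b g := by
    by_contra h
    exact hcon.1 h
  have h2 : c g = e g := by
    by_contra h
    exact hcon.2 h
  simp only
  rw [h1, h2, (hm _ _).2]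

theorem theta_trans {S : Set (Conf d A)} {m : A → A → A → A} (hm : IsMaltsev m)
    (hcl : Stable m S) {K : Finset (G d)} {x y z : Conf d A}
    (h : theta S K x y) (h' : theta S K y z) : theta S K x z := by
  obtain ⟨u1, hu1, u1', hu1', hf, h1, h2⟩ := h
  obtain ⟨u2, hu2, u2', hu2', hf', h3, h4⟩ := h'
  refine ⟨fun g => m (u1 g) (u1' g) (u2 g), hcl _ hu1 _ hu1' _ hu2, u2', hu2',
    (hf.union hf').subset (diff_subset_of_maltsev hm _ _ _ _), ?_, h4⟩
  intro g hg
  simp only
  rw [h1 g hg, h2 g hg, h3 g hg, (hm _ _).1]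

theorem diff_shift_finite {x y : Conf d A} (h : (diff x y).Finite) (g : G d) :
    (diff (sh g x) (sh g y)).Finite := by
  refine (h.image (fun a => a - g)).subset ?_
  intro a ha
  exact ⟨a + g, ha, by simp⟩

/-- The configurations of `S` all of whose patterns are homoclinically equivalent to those of
`s₀`. -/
def core (S : Set (Conf d A)) (s₀ : Conf d A) : Set (Conf d A) :=
  {s | s ∈ S ∧ ∀ (K : Finset (G d)) (g : G d), theta S K (sh g s) s₀}

theorem core_homo {S : Set (Conf d A)}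
    (hS : ∀ (g : G d) (x : Conf d A), x ∈ S → sh g x ∈ S) {m : A → A → A → A} (hm : IsMaltsev m)
    (hcl : Stable m S) {s₀ s z : Conf d A} (hs : s ∈ core S s₀) (hz : z ∈ S)
    (h : (diff z s).Finite) : z ∈ core S s₀ :=
  ⟨hz, fun K g => theta_trans hm hcl
    (theta_of_homo K (hS g z hz) (hS g s hs.1) (diff_shift_finite h g)) (hs.2 K g)⟩

theorem mem_of_approx [TopologicalSpace A] {S : Set (Conf d A)} (hS : IsClosed S) {z : Conf d A}
    (h : ∀ D : Finset (G d), ∃ s ∈ S, ∀ g ∈ D, s g = z g) : z ∈ S := by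
  by_contra hzS
  obtain ⟨I, u, hu, hsub⟩ := isOpen_pi_iff.1 hS.isOpen_compl z hzS
  obtain ⟨s, hs, hsI⟩ := h I
  have : s ∈ (I : Set (G d)).pi u := by
    intro g hg
    rw [hsI g hg]
    exact (hu g hg).2
  exact hsub this hs

theorem core_subshift [Finite A] [TopologicalSpace A] [DiscreteTopology A] {S : Set (Conf d A)}
    (hS : IsSubshift S) (s₀ : Conf d A) : IsSubshift (core S s₀) := by
  constructor
  · have h0 : core S s₀ = S ∩ ⋂ (K : Finset (G d)) (g : G d), {s | theta S K (sh g s) s₀} := by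
      ext s
      simp [core]
    rw [h0]
    refine hS.closed.inter (isClosed_iInter fun K => isClosed_iInter fun g => ?_)
    refine Pool.Agent.H89.LCL.isClosed_of_local (K.image (· + g)) _ ?_
    rintro x y hxy ⟨u, hu, u', hu', hf, h1, h2⟩
    refine ⟨u, hu, u', hu', hf, ?_, h2⟩
    intro a ha
    rw [h1 a ha]
    exact hxy (a + g) (Finset.mem_image_of_mem _ ha)
  · intro g x hx
    refine ⟨hS.shift g x hx.1, fun K a => ?_⟩
    rw [sh_sh]
    exact hx.2 K (a + g)

theorem core_gap [Finite A] {S : Set (Conf d A)}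
    (hS : ∀ (g : G d) (x : Conf d A), x ∈ S → sh g x ∈ S) {m : A → A → A → A} (hm : IsMaltsev m)
    (hcl : Stable m S) (s₀ : Conf d A) : ∃ r : ℕ, ∀ s ∈ core S s₀, ∀ s' ∈ core S s₀,
      ∀ K : Finset (G d), ∃ z ∈ core S s₀, (∀ g ∈ K, z g = s g) ∧
        ∀ h, (∀ g ∈ K, h - g ∉ ball d r) → z h = s' h := by
  obtain ⟨ρ, hρ⟩ := exists_pivot hS hm hcl
  refine ⟨2 * ρ, ?_⟩
  intro s hs s' hs' K
  have h1 := hs.2 K 0
  have h2 := hs'.2 K 0
  rw [sh_zero] at h1 h2
  obtain ⟨u, hu, u', hu', hf, hus, hus'⟩ := theta_trans hm hcl h1 (theta_symm h2)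
  set y : Conf d A := fun g => m (u g) (u' g) (s' g) with hy
  have hyS : y ∈ S := hcl _ hu _ hu' _ hs'.1
  have hyf : (diff y s').Finite := by
    refine (hf.union (?_ : (diff s' s').Finite)).subset (diff_subset_of_maltsev hm _ _ _ _)
    have : diff s' s' = ∅ := by
      ext g
      simp [diff]
    rw [this]
    exact Set.finite_empty
  have hyK : ∀ g ∈ K, y g = s g := by
    intro g hg
    rw [hy]
    simp only
    rw [hus g hg, hus' g hg, (hm _ _).1]
  obtain ⟨z, hz, hzK, hzf, hzd⟩ := cut_off hm hcl hs'.1 (K : Set (G d)) y (hρ y hyS s' hs'.1 hyf)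
  refine ⟨z, core_homo hS hm hcl hs' hz hzf, ?_, ?_⟩
  · intro g hg
    rw [hzK g hg, hyK g hg]
  · intro h hh
    by_contra hne
    obtain ⟨g, hg, hgb⟩ := hzd h hne
    exact hh g hg hgb

theorem core_si [Finite A] [TopologicalSpace A] [DiscreteTopology A] {S : Set (Conf d A)}
    (hS : IsSubshift S) {m : A → A → A → A} (hm : IsMaltsev m) (hcl : Stable m S)
    (s₀ : Conf d A) : StronglyIrreducible (core S s₀) := by
  classical
  obtain ⟨r, hr⟩ := core_gap hS.shift hm hcl s₀
  refine ⟨ball d r, ?_⟩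
  intro P Q hPQ x hx y hy
  obtain ⟨z, hz⟩ := Pool.Agent.H89.LCL.exists_limit
    (fun D : Finset (G d) => {q : Conf d A | ∃ z ∈ core S s₀, ∀ g ∈ D, z g = q g ∧
      (g ∈ P → q g = x g) ∧ (g ∈ Q → q g = y g)})
    (by
      intro D
      obtain ⟨z, hz, h1, h2⟩ := hr x hx y hy (D.filter (· ∈ P))
      refine ⟨z, z, hz, ?_⟩
      intro g hg
      refine ⟨rfl, fun hgP => h1 g (Finset.mem_filter.2 ⟨hg, hgP⟩), fun hgQ => h2 g ?_⟩
      intro k hk hgk
      rw [Finset.mem_filter] at hk
      apply hPQ k hk.2 (g - k) hgk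
      simpa using hgQ)
    (by
      rintro D D' hsub q ⟨z, hz, h⟩
      exact ⟨z, hz, fun g hg => h g (hsub hg)⟩)
    (by
      rintro D a b hab ⟨z, hz, h⟩
      refine ⟨z, hz, fun g hg => ?_⟩
      rw [← hab g hg]
      exact h g hg)
  refine ⟨z, mem_of_approx (core_subshift hS s₀).closed fun D => ?_, ?_, ?_⟩
  · obtain ⟨s, hs, h⟩ := hz D
    exact ⟨s, hs, fun g hg => (h g hg).1⟩
  · intro g hg
    obtain ⟨s, _, h⟩ := hz {g}
    exact (h g (Finset.mem_singleton_self g)).2.1 hg
  · intro g hg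
    obtain ⟨s, _, h⟩ := hz {g}
    exact (h g (Finset.mem_singleton_self g)).2.2 hg

end Pool.Agent.H89.MAL
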