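import Pool.Agent.H89.MAL.Core
import Pool.Agent.H89.MAL.SFT

/-!
A generically constant homoclinic class from an equivariant map with few patterns.
-/

open MeasureTheory Topology Filter Set
open Pool.Agent.H62.BS

namespace Pool.Agent.H89.MAL

variable {d : ℕ} {A : Type}

/-! ### Subshifts of finite type -/

theorem ball_mono {r r' : ℕ} (h : r ≤ r') : ball d r ⊆ ball d r' := by
  intro g hg
  rw [mem_ball] at *
  intro i
  exact (hg i).trans (by exact_mod_cast h)

theorem exists_mem_ball (g : G d) : ∃ n, g ∈ ball d n := by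
  refine ⟨∑ i, (g i).natAbs, ?_⟩
  rw [mem_ball]
  intro i
  rw [Int.abs_eq_natAbs]
  exact_mod_cast Finset.single_le_sum (f := fun i => (g i).natAbs) (fun _ _ => Nat.zero_le _)
    (Finset.mem_univ i)

theorem exists_ball_finset (D : Finset (G d)) : ∃ n, D ⊆ ball d n := by
  classical
  choose n hn using fun g : G d => exists_mem_ball g
  refine ⟨D.sup n, fun g hg => ball_mono (Finset.le_sup (f := n) hg) (hn g)⟩

theorem add_mem_ball {r r' : ℕ} {g h : G d} (hg : g ∈ ball d r) (hh : h ∈ ball d r') :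
    g + h ∈ ball d (r + r') := by
  rw [mem_ball] at *
  intro i
  have := hg i
  have := hh i
  simp only [Pi.add_apply, Nat.cast_add]
  exact (abs_add_le _ _).trans (by linarith)

theorem IsSFT.window {S : Set (Conf d A)} (hS : IsSFT S) : ∃ w : ℕ, ∀ x : Conf d A,
    (∀ g : G d, ∃ s ∈ S, ∀ h ∈ ball d w, x (h + g) = s (h + g)) → x ∈ S := by
  classical
  obtain ⟨F, hF, rfl⟩ := hS
  obtain ⟨w, hw⟩ := exists_ball_finset (hF.toFinset.biUnion fun P => P.1)
  refine ⟨w, ?_⟩
  intro x hx P hP g hpat
  obtain ⟨s, hs, hag⟩ := hx g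
  apply hs P hP g
  intro h
  rw [← hag h (hw (Finset.mem_biUnion.2 ⟨P, hF.mem_toFinset.2 hP, h.2⟩))]
  exact hpat h

theorem IsSFT.shift {S : Set (Conf d A)} (hS : IsSFT S) (g : G d) (x : Conf d A) (hx : x ∈ S) :
    sh g x ∈ S := by
  obtain ⟨F, hF, rfl⟩ := hS
  intro P hP k hpat
  apply hx P hP (k + g)
  intro h
  have := hpat h
  rw [← this, sh, add_assoc]

theorem IsSFT.subshift [Finite A] [TopologicalSpace A] [DiscreteTopology A] {S : Set (Conf d A)}
    (hS : IsSFT S) : IsSubshift S := by
  refine ⟨?_, hS.shift⟩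
  obtain ⟨w, hw⟩ := hS.window
  have h0 : S = ⋂ g : G d, {x | ∃ s ∈ S, ∀ h ∈ ball d w, x (h + g) = s (h + g)} := by
    apply subset_antisymm
    · intro x hx
      rw [mem_iInter]
      intro g
      exact ⟨x, hx, fun _ _ => rfl⟩
    · intro x hx
      rw [mem_iInter] at hx
      exact hw x hx
  rw [h0]
  refine isClosed_iInter fun g => ?_
  refine Pool.Agent.H89.LCL.isClosed_of_local ((ball d w).image (· + g)) _ ?_
  rintro x y hxy ⟨s, hs, h⟩
  refine ⟨s, hs, fun a ha => ?_⟩
  rw [← hxy (a + g) (Finset.mem_image_of_mem _ ha)]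
  exact h a ha

/-- The exchange property: two configurations which agree on an annulus can be spliced. -/
theorem IsSFT.splice {S : Set (Conf d A)} (hS : IsSFT S) : ∃ w : ℕ, ∀ (N : ℕ), ∀ s ∈ S, ∀ s' ∈ S,
    (∀ g ∈ ball d (N + 2 * w), g ∉ ball d N → s g = s' g) →
    ∃ z ∈ S, (∀ g ∈ ball d N, z g = s g) ∧ (diff z s').Finite := by
  classical
  obtain ⟨w, hw⟩ := hS.window
  refine ⟨w, ?_⟩
  intro N s hs s' hs' hag
  set z : Conf d A := fun g => if g ∈ ball d (N + w) then s g else s' g with hz
  have hin : ∀ g ∈ ball d (N + 2 * w), z g = s g := by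
    intro g hg
    by_cases h : g ∈ ball d (N + w)
    · simp [hz, h]
    · have h2 : g ∉ ball d N := fun h' => h (ball_mono (by omega) h')
      simp only [hz, if_neg h]
      exact (hag g hg h2).symm
  have hout : ∀ g, g ∉ ball d N → z g = s' g := by
    intro g hg
    by_cases h : g ∈ ball d (N + w)
    · simp only [hz, if_pos h]
      exact hag g (ball_mono (by omega) h) hg
    · simp only [hz, if_neg h]
  refine ⟨z, hw z ?_, fun g hg => hin g (ball_mono (by omega) hg), ?_⟩
  · intro g
    by_cases hg : g ∈ ball d (N + w)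
    · refine ⟨s, hs, fun h hh => hin _ ?_⟩
      have := add_mem_ball hh hg
      refine ball_mono ?_ this
      omega
    · refine ⟨s', hs', fun h hh => hout _ ?_⟩
      intro hcon
      apply hg
      rw [mem_ball] at *
      intro i
      have e1 := hh i
      have e2 := hcon i
      simp only [Pi.add_apply] at e2
      rw [abs_le] at *
      push_cast
      constructor <;> linarith [e1.1, e1.2, e2.1, e2.2]
  · refine (ball d (N + w)).finite_toSet.subset ?_
    intro g hg
    by_contra hcon
    apply hg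
    exact hout g (fun h => hcon (ball_mono (by omega) h))

/-! ### The class of a configuration -/

/-- The homoclinic class of the pattern of `s` on `K`, as a set of patterns. -/
def cls (S : Set (Conf d A)) (K : Finset (G d)) (s : Conf d A) : Set (K → A) :=
  {p | ∃ u' ∈ S, (∀ g : K, u' g = p g) ∧ theta S K s u'}

theorem theta_of_cls {S : Set (Conf d A)} {K : Finset (G d)} {s s' : Conf d A}
    (hs' : s' ∈ S) (h : cls S K s = cls S K s') : theta S K s s' := by
  have h1 : (fun g : K => s' g) ∈ cls S K s' := by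
    refine ⟨s', hs', fun _ => rfl, theta_of_homo K hs' hs' ?_⟩
    have : diff s' s' = ∅ := by
      ext g
      simp [diff]
    rw [this]
    exact Set.finite_empty
  rw [← h] at h1
  obtain ⟨u', _, hu, a, ha, b, hb, hf, h3, h4⟩ := h1
  exact ⟨a, ha, b, hb, hf, h3, fun g hg => by rw [h4 g hg]; exact hu ⟨g, hg⟩⟩

theorem cls_of_theta {S : Set (Conf d A)} {m : A → A → A → A} (hm : IsMaltsev m)
    (hcl : Stable m S) {K : Finset (G d)} {s s' : Conf d A} (h : theta S K s s') :
    cls S K s = cls S K s' := by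
  ext p
  constructor
  · rintro ⟨u', hu', hp, ht⟩
    exact ⟨u', hu', hp, theta_trans hm hcl (theta_symm h) ht⟩
  · rintro ⟨u', hu', hp, ht⟩
    exact ⟨u', hu', hp, theta_trans hm hcl h ht⟩

theorem theta_congr {S : Set (Conf d A)} {K : Finset (G d)} {s s' t : Conf d A}
    (h : ∀ g ∈ K, s g = s' g) (ht : theta S K s t) : theta S K s' t := by
  obtain ⟨a, ha, b, hb, hf, h3, h4⟩ := ht
  exact ⟨a, ha, b, hb, hf, fun g hg => by rw [h3 g hg, h g hg], h4⟩

theorem cls_congr {S : Set (Conf d A)} {K : Finset (G d)} {s s' : Conf d A}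
    (h : ∀ g ∈ K, s g = s' g) : cls S K s = cls S K s' := by
  ext p
  constructor
  · rintro ⟨u', hu', hp, ht⟩
    exact ⟨u', hu', hp, theta_congr h ht⟩
  · rintro ⟨u', hu', hp, ht⟩
    exact ⟨u', hu', hp, theta_congr (fun g hg => (h g hg).symm) ht⟩

/-- The set of patterns on the box `ball d n` of a function on the free part. -/
def pats {V : Type} (F : FreePart d → V) (n : ℕ) : Set (ball d n → V) :=
  {w | ∃ x, ∀ g : ball d n, w g = F (act (g : G d) x)}

theorem pats_bound [Finite A] {S : Set (Conf d A)} (hS : IsSFT S) {m : A → A → A → A}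
    (hm : IsMaltsev m) (hcl : Stable m S) (K : Finset (G d)) {T : FreePart d → Conf d A}
    (hT : ∀ x, T x ∈ S) (hE : ∀ g x, T (act g x) = sh g (T x)) :
    ∃ k c : ℕ, ∀ n, (pats (fun x => cls S K (T x)) n).ncard ≤
      Nat.card A ^ ((ball d (n + k + c)).card - (ball d (n + k)).card) := by
  classical
  cases nonempty_fintype A
  obtain ⟨w, hw⟩ := hS.splice
  obtain ⟨k, hk⟩ := exists_ball_finset K
  refine ⟨k, 2 * w, ?_⟩
  intro n
  set R : Finset (G d) := ball d (n + k + 2 * w) \ ball d (n + k) with hR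
  have hcard : R.card = (ball d (n + k + 2 * w)).card - (ball d (n + k)).card :=
    Finset.card_sdiff_of_subset (ball_mono (by omega))
  rw [← hcard]
  -- the pattern of `cls` on `ball d n` is a function of the pattern of `T x` on `R`
  have key : ∀ x x' : FreePart d, (∀ g : R, T x g = T x' g) → ∀ g : ball d n,
      cls S K (T (act (g : G d) x)) = cls S K (T (act (g : G d) x')) := by
    intro x x' hag g
    obtain ⟨z, hz, hzin, hzf⟩ := hw (n + k) (T x) (hT x) (T x') (hT x') (by
      intro a ha ha'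
      exact hag ⟨a, by rw [hR, Finset.mem_sdiff]; exact ⟨ha, ha'⟩⟩)
    rw [hE, hE]
    have h1 : cls S K (sh (g : G d) z) = cls S K (sh (g : G d) (T x')) :=
      cls_of_theta hm hcl (theta_of_homo K (hS.shift _ _ hz) (hS.shift _ _ (hT x'))
        (diff_shift_finite hzf _))
    rw [← h1]
    apply cls_congr
    intro a ha
    simp only [sh]
    refine (hzin _ ?_).symm
    have h3 := add_mem_ball (hk ha) g.2
    refine ball_mono ?_ h3
    omega
  have hfin : (pats (fun x => cls S K (T x)) n) ⊆
      Set.range (fun p : Set.range (fun (x : FreePart d) (g : R) => T x g) =>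
        (fun g : ball d n => cls S K (T (act (g : G d) (Classical.choose p.2))))) := by
    rintro v ⟨x, hx⟩
    refine ⟨⟨fun g => T x g, x, rfl⟩, ?_⟩
    funext g
    rw [hx g]
    apply key
    intro a
    exact congrFun (Classical.choose_spec (⟨x, rfl⟩ :
      ∃ y, (fun g : R => T y g) = fun g : R => T x g)) a
  calc (pats (fun x => cls S K (T x)) n).ncard
      ≤ (Set.range (fun p : Set.range (fun (x : FreePart d) (g : R) => T x g) =>
        (fun g : ball d n => cls S K (T (act (g : G d) (Classical.choose p.2)))))).ncard :=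
        Set.ncard_le_ncard hfin (Set.toFinite _)
    _ ≤ Nat.card (Set.range (fun (x : FreePart d) (g : R) => T x g)) := by
        rw [← Nat.card_coe_set_eq]
        exact Finite.card_range_le _
    _ ≤ Nat.card (R → A) := Finite.card_subtype_le _
    _ = Nat.card A ^ R.card := by
        rw [Nat.card_fun]
        simp

theorem card_ball (r : ℕ) : (ball d r).card = (2 * r + 1) ^ d := by
  rw [ball, Pi.card_Icc]
  simp only [Int.card_Icc, Finset.prod_const, Finset.card_univ, Fintype.card_fin]
  congr 1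
  omega

theorem tendsto_ratio (a : ℕ) :
    Tendsto (fun n : ℕ => (((2 * (n + a) + 1 : ℕ) : ℝ) / ((2 * n + 1 : ℕ) : ℝ)) ^ d) atTop
      (𝓝 1) := by
  have h1 : Tendsto (fun n : ℕ => ((2 * n + 1 : ℕ) : ℝ)) atTop atTop := by
    refine tendsto_natCast_atTop_atTop.comp ?_
    exact tendsto_atTop_mono (fun n => (by simp only [id]; omega)) tendsto_id
  have h2 : Tendsto (fun n : ℕ => 1 + (2 * a : ℝ) / ((2 * n + 1 : ℕ) : ℝ)) atTop (𝓝 (1 + 0)) :=
    tendsto_const_nhds.add (h1.const_div_atTop _)
  have h3 : (fun n : ℕ => (((2 * (n + a) + 1 : ℕ) : ℝ) / ((2 * n + 1 : ℕ) : ℝ)) ^ d) =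
      fun n : ℕ => (1 + (2 * a : ℝ) / ((2 * n + 1 : ℕ) : ℝ)) ^ d := by
    funext n
    congr 1
    have : ((2 * n + 1 : ℕ) : ℝ) ≠ 0 := by positivity
    field_simp
    push_cast
    ring
  rw [h3]
  have h4 := h2.pow d
  simpa using h4

theorem growth (q k c : ℕ) (ε : ℝ) (hε : 0 < ε) : ∀ᶠ n : ℕ in atTop,
    ((q ^ ((ball d (n + k + c)).card - (ball d (n + k)).card) : ℕ) : ℝ) ≤
      Real.exp (ε * ((2 * n + 1 : ℕ) : ℝ) ^ d) := by
  set L : ℝ := Real.log (max q 1 : ℕ) with hL
  have hL0 : 0 ≤ L := Real.log_natCast_nonneg _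
  have h1 : Tendsto (fun n : ℕ => L * ((((2 * (n + (k + c)) + 1 : ℕ) : ℝ) /
      ((2 * n + 1 : ℕ) : ℝ)) ^ d - (((2 * (n + k) + 1 : ℕ) : ℝ) / ((2 * n + 1 : ℕ) : ℝ)) ^ d))
      atTop (𝓝 (L * (1 - 1))) :=
    ((tendsto_ratio (k + c)).sub (tendsto_ratio k)).const_mul L
  rw [sub_self, mul_zero] at h1
  filter_upwards [h1.eventually (gt_mem_nhds hε)] with n hn
  have hpos : (0 : ℝ) < ((2 * n + 1 : ℕ) : ℝ) ^ d := by positivity
  have hle : (ball d (n + k)).card ≤ (ball d (n + k + c)).card :=
    Finset.card_le_card (ball_mono (by omega))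
  have h2 : ((q ^ ((ball d (n + k + c)).card - (ball d (n + k)).card) : ℕ) : ℝ) ≤
      Real.exp (((ball d (n + k + c)).card - (ball d (n + k)).card : ℕ) * L) := by
    rw [mul_comm, Real.exp_mul, Real.exp_log (by positivity), Real.rpow_natCast]
    exact_mod_cast Nat.pow_le_pow_left (le_max_left q 1) _
  refine h2.trans (Real.exp_le_exp.2 ?_)
  rw [Nat.cast_sub hle, card_ball, card_ball]
  rw [div_pow, div_pow, ← sub_div, mul_div_assoc', div_lt_iff₀ hpos] at hn
  have e1 : n + k + c = n + (k + c) := by omega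
  rw [e1]
  push_cast at hn ⊢
  linarith

/-- A constant homoclinic class: the hypothesis `hconst` says that functions with
subexponentially many patterns are constant up to the filter `l`. -/
theorem exists_base [Finite A] [TopologicalSpace A] [DiscreteTopology A] {S : Set (Conf d A)}
    (hS : IsSFT S) {m : A → A → A → A} (hm : IsMaltsev m) (hcl : Stable m S)
    {l : Filter (FreePart d)} (hne : l.NeBot) (hci : CountableInterFilter l)
    (hact : ∀ p : FreePart d → Prop, (∀ᶠ x in l, p x) → ∀ᶠ x in l, ∀ g, p (act g x))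
    {good : Set (FreePart d) → Prop}
    (hconst : ∀ (V : Type) [Finite V] (F : FreePart d → V), (∀ v, good {x | F x = v}) →
      (∀ ε > 0, ∃ᶠ n : ℕ in atTop, ((pats F n).ncard : ℝ) ≤
        Real.exp (ε * ((2 * n + 1 : ℕ) : ℝ) ^ d)) → ∃ v, ∀ᶠ x in l, F x = v)
    (hT : HasMap good S) : ∃ s₀ ∈ S, ∀ (K : Finset (G d)) (g : G d), theta S K (sh g s₀) s₀ := by
  classical
  obtain ⟨T, hTS, hTE, hTB⟩ := hT
  have key : ∀ K : Finset (G d), ∃ v, ∀ᶠ x in l, cls S K (T x) = v := by
    intro K
    apply hconst (Set (K → A)) (fun x => cls S K (T x))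
    · intro v
      have hloc : IsClosed {s : Conf d A | cls S K s = v} := by
        refine Pool.Agent.H89.LCL.isClosed_of_local K _ ?_
        intro x y hxy hx
        rw [mem_ofPred_eq] at hx ⊢
        rw [← hx]
        exact (cls_congr hxy).symm
      have hB : MeasurableSet[borel (Conf d A)] {s : Conf d A | cls S K s = v} := by
        rw [← MeasurableSet.compl_iff]
        exact MeasurableSpace.measurableSet_generateFrom hloc.isOpen_compl
      exact hTB _ hB
    · intro ε hε
      obtain ⟨k, c, hkc⟩ := pats_bound hS hm hcl K hTS hTE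
      refine ((growth (d := d) (Nat.card A) k c ε hε).mono fun n hn => ?_).frequently
      refine le_trans ?_ hn
      exact_mod_cast hkc n
  choose v hv using key
  have h1 : ∀ᶠ x in l, ∀ K : Finset (G d), ∀ g, cls S K (T (act g x)) = v K := by
    rw [eventually_countable_forall]
    intro K
    exact hact _ (hv K)
  obtain ⟨x, hx⟩ := h1.exists
  refine ⟨T x, hTS x, fun K g => ?_⟩
  rw [← hTE g x]
  apply theta_of_cls (hTS x)
  rw [hx K g]
  have := hx K 0
  rw [act_zero] at this
  exact this.symm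

end Pool.Agent.H89.MAL
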