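import Pool.Agent.H89.MAL.Generic
import Pool.Agent.H62.BS.Glue
import Pool.Agent.H62.BS.MixBaire

/-!
The equivalence theorem for subshifts of finite type closed under a Maltsev operation.
-/

open MeasureTheory Topology Filter Set
open Pool.Agent.H62.BS

namespace Pool.Agent.H89.MAL

variable {d : ℕ} {A : Type}

/-- `S` contains a nonempty strongly irreducible subshift. -/
def HasSI [TopologicalSpace A] (S : Set (Conf d A)) : Prop :=
  ∃ S' ⊆ S, S'.Nonempty ∧ IsSubshift S' ∧ StronglyIrreducible S'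

theorem HasMap.mono_set [TopologicalSpace A] {good : Set (FreePart d) → Prop}
    {S S' : Set (Conf d A)} (h : S' ⊆ S) (hS' : HasMap good S') : HasMap good S := by
  obtain ⟨T, h1, h2, h3⟩ := hS'
  exact ⟨T, fun x => h (h1 x), h2, h3⟩

theorem HasMap.mono_good [TopologicalSpace A] {good good' : Set (FreePart d) → Prop}
    {S : Set (Conf d A)} (h : ∀ E, good E → good' E) (hS : HasMap good S) : HasMap good' S := by
  obtain ⟨T, h1, h2, h3⟩ := hS
  exact ⟨T, h1, h2, fun B hB => h _ (h3 B hB)⟩

theorem hasSI_of_base [Finite A] [TopologicalSpace A] [DiscreteTopology A] {S : Set (Conf d A)}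
    (hS : IsSFT S) {m : A → A → A → A} (hm : IsMaltsev m) (hcl : Stable m S)
    (h : ∃ s₀ ∈ S, ∀ (K : Finset (G d)) (g : G d), theta S K (sh g s₀) s₀) : HasSI S := by
  obtain ⟨s₀, hs₀, h0⟩ := h
  exact ⟨core S s₀, fun s hs => hs.1, ⟨s₀, hs₀, h0⟩, core_subshift hS.subshift s₀,
    core_si hS.subshift hm hcl s₀⟩

theorem borelMap_of_hasSI [Finite A] [TopologicalSpace A] [DiscreteTopology A]
    {S : Set (Conf d A)} (h : HasSI S) : BorelMap S := by
  obtain ⟨S', hsub, hne, hS', hSI⟩ := h
  exact HasMap.mono_set hsub (borelMap_of_si hS' hne hSI)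

end Pool.Agent.H89.MAL
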