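import Pool.Agent.H89.MAL.Main
import Pool.Agent.H62.BS.ConstCoin

/-!
The equivalence theorem for subshifts of finite type closed under a Maltsev operation.
-/

open MeasureTheory Topology Filter Set
open Pool.Agent.H62.BS

namespace Pool.Agent.H89.MAL

variable {d : ℕ} {A : Type}

theorem hasSI_of_maltsev_baire [Finite A] [TopologicalSpace A] [DiscreteTopology A]
    {S : Set (Conf d A)} (hS : IsSFT S) {m : A → A → A → A} (hm : IsMaltsev m)
    (hcl : Stable m S) (hT : BaireMap S) : HasSI S := by
  apply hasSI_of_base hS hm hcl
  refine exists_base hS hm hcl (l := residual (FreePart d)) inferInstance inferInstance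
    (fun p hp => residual_all_act hp) ?_ hT
  intro V _ F hF hent
  exact const_residual' V F hF hent

theorem hasSI_of_maltsev_coin [Finite A] [TopologicalSpace A] [DiscreteTopology A]
    {S : Set (Conf d A)} (hS : IsSFT S) {m : A → A → A → A} (hm : IsMaltsev m)
    (hcl : Stable m S) (hT : MeasMap (coin d) S) : HasSI S := by
  apply hasSI_of_base hS hm hcl
  refine exists_base hS hm hcl (l := ae (coin d)) inferInstance inferInstance
    (fun p hp => ae_coin_all_act hp) ?_ hT
  intro V _ F hF hent
  exact const_coin' V F hF hent

/-- The equivalence theorem for subshifts of finite type closed under a Maltsev operation. -/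
theorem maltsev_tfae [Finite A] [TopologicalSpace A] [DiscreteTopology A]
    {S : Set (Conf d A)} (hS : IsSFT S) {m : A → A → A → A} (hm : IsMaltsev m)
    (hcl : Stable m S) :
    [BorelMap S, BaireMap S, ∀ μ : Measure (FreePart d), IsProbabilityMeasure μ → MeasMap μ S,
      MeasMap (coin d) S, HasSI S].TFAE := by
  tfae_have 1 → 2 := fun h => HasMap.mono_good (fun _ hE => hE.baireMeasurableSet) h
  tfae_have 1 → 3 := fun h μ _ => HasMap.mono_good (fun _ hE => hE.nullMeasurableSet) h
  tfae_have 3 → 4 := fun h => h (coin d) inferInstance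
  tfae_have 2 → 5 := hasSI_of_maltsev_baire hS hm hcl
  tfae_have 4 → 5 := hasSI_of_maltsev_coin hS hm hcl
  tfae_have 5 → 1 := borelMap_of_hasSI
  tfae_finish

end Pool.Agent.H89.MAL
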