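import Pool.Agent.H89.MAL.Main
import Pool.Agent.H89.LCL.NU
import Pool.Agent.H89.LCL.Baire
import Pool.Agent.H89.LCL.Bernoulli
import Pool.Agent.H62.BS.MixCoin

/-!
The equivalence theorem for subshifts closed under a near-unanimity operation.
-/

open MeasureTheory Topology Filter Set
open Pool.Agent.H62.BS

namespace Pool.Agent.H89.MAL

variable {d : ℕ} {A : Type}

theorem mixFilter_residual (d : ℕ) : LCL.MixFilter (residual (FreePart d)) :=
  LCL.residual_mix d (LCL.dense_freePart d)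

theorem one_eq_coin : Mix5.one = LCL.coin := by
  apply Measure.ext_of_singleton
  intro b
  rw [Mix5.one_singleton, LCL.coin_singleton]

theorem coin_eq_bern (d : ℕ) : (coin d : Measure (FreePart d)) = LCL.bern d := by
  rw [Mix5.coin_eq, Mix5.nu, one_eq_coin]
  rfl

theorem mixFilter_coin (d : ℕ) : LCL.MixFilter (ae (coin d)) := by
  rw [coin_eq_bern]
  exact LCL.mixFilter_bern d

theorem hasSI_of_nu [Finite A] [TopologicalSpace A] [DiscreteTopology A] {S : Set (Conf d A)}
    (hS : IsSubshift S) {n : ℕ} (hn : 3 ≤ n) {f : (Fin n → A) → A} (hf : IsNU f)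
    (hcl : StableNU f S) {l : Filter (FreePart d)} (hl : LCL.MixFilter l)
    {good : Set (FreePart d) → Prop}
    (hgood : ∀ E, good E → ∃ B : Set (FreePart d), MeasurableSet B ∧ E =ᶠ[l] B)
    (hT : HasMap good S) : HasSI S := by
  obtain ⟨T, hTS, hTE, hTB⟩ := hT
  obtain ⟨k, rfl⟩ : ∃ k, n = k + 1 := ⟨n - 1, by omega⟩
  have hsol : LCL.SolMod l S T := by
    refine ⟨fun g x => hTE g x, fun x => hTS x, ?_⟩
    intro g a
    refine hgood _ (hTB {z | z g = a} ?_)
    have h0 : Continuous fun z : Conf d A => z g := continuous_apply g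
    have h1 : IsOpen {z : Conf d A | z g = a} := (isOpen_discrete ({a} : Set A)).preimage h0
    exact MeasurableSpace.measurableSet_generateFrom h1
  obtain ⟨r, L, hL⟩ := LCL.nu_lang k (by omega) f hf hcl hl hsol
  obtain ⟨S', h1, h2, h3, h4⟩ := LCL.si_of_lang hS hL
  exact ⟨S', h1, h2, h3, h4⟩

theorem hasSI_of_nu_baire [Finite A] [TopologicalSpace A] [DiscreteTopology A]
    {S : Set (Conf d A)} (hS : IsSubshift S) {n : ℕ} (hn : 3 ≤ n) {f : (Fin n → A) → A}
    (hf : IsNU f) (hcl : StableNU f S) (hT : BaireMap S) : HasSI S := by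
  refine hasSI_of_nu hS hn hf hcl (mixFilter_residual d) ?_ hT
  rintro E ⟨B, hB, he⟩
  refine ⟨B, ?_, he⟩
  rw [BorelSpace.measurable_eq (α := FreePart d)]
  exact hB

theorem hasSI_of_nu_coin [Finite A] [TopologicalSpace A] [DiscreteTopology A]
    {S : Set (Conf d A)} (hS : IsSubshift S) {n : ℕ} (hn : 3 ≤ n) {f : (Fin n → A) → A}
    (hf : IsNU f) (hcl : StableNU f S) (hT : MeasMap (coin d) S) : HasSI S := by
  refine hasSI_of_nu hS hn hf hcl (mixFilter_coin d) ?_ hT
  intro E hE
  obtain ⟨B, _, hB, he⟩ := hE.exists_measurable_superset_ae_eq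
  exact ⟨B, hB, he.symm⟩

theorem nu_tfae [Finite A] [TopologicalSpace A] [DiscreteTopology A]
    {S : Set (Conf d A)} (hS : IsSubshift S) {n : ℕ} (hn : 3 ≤ n) {f : (Fin n → A) → A}
    (hf : IsNU f) (hcl : StableNU f S) :
    [BorelMap S, BaireMap S, ∀ μ : Measure (FreePart d), IsProbabilityMeasure μ → MeasMap μ S,
      MeasMap (coin d) S, HasSI S].TFAE := by
  tfae_have 1 → 2 := fun h => HasMap.mono_good (fun _ hE => hE.baireMeasurableSet) h
  tfae_have 1 → 3 := fun h μ _ => HasMap.mono_good (fun _ hE => hE.nullMeasurableSet) h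
  tfae_have 3 → 4 := fun h => h (coin d) inferInstance
  tfae_have 2 → 5 := hasSI_of_nu_baire hS hn hf hcl
  tfae_have 4 → 5 := hasSI_of_nu_coin hS hn hf hcl
  tfae_have 5 → 1 := borelMap_of_hasSI
  tfae_finish

end Pool.Agent.H89.MAL
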