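import Pool.Agent.H89.MAL.Stmt

/-!
Bounded moves and a uniform gap for shift invariant sets of configurations closed under a Maltsev
operation (Dickson's lemma in place of Hilbert's basis theorem).
-/

open MeasureTheory Topology Filter Set
open Pool.Agent.H62.BS

namespace Pool.Agent.H89.MAL

variable {d : ℕ} {A : Type}

/-- The set of cells where `x` and `y` differ. -/
def diff (x y : Conf d A) : Set (G d) := {g | x g ≠ y g}

/-- The embedding of `ℕ^d` into `ℤ^d`. -/
def emb (v : Fin d → ℕ) : G d := fun i => (v i : ℤ)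

theorem emb_add (v w : Fin d → ℕ) : emb (v + w) = emb v + emb w := by
  funext i
  simp [emb]

theorem emb_injective : Function.Injective (emb : (Fin d → ℕ) → G d) := by
  intro v w h
  funext i
  have := congrFun h i
  simpa [emb] using this

/-- One move inside `S`: the two configurations differ only inside a translate of the ball of
radius `ρ`. -/
def Move (S : Set (Conf d A)) (ρ : ℕ) (x y : Conf d A) : Prop :=
  x ∈ S ∧ y ∈ S ∧ ∃ g : G d, ∀ h ∈ diff x y, h - g ∈ ball d ρ

/-- The leading pair `(a, b)` occurs at the position `v ∈ ℕ^d`. -/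
def Lead (S : Set (Conf d A)) (a b : A) (v : Fin d → ℕ) (t t' : Conf d A) : Prop :=
  t ∈ S ∧ t' ∈ S ∧ t (emb v) = a ∧ t' (emb v) = b ∧ (diff t t').Finite ∧
    ∀ h ∈ diff t t', ∃ u : Fin d → ℕ, h = emb u ∧ toLex u ≤ toLex v

theorem lead_shift {S : Set (Conf d A)} (hS : ∀ (g : G d) (x : Conf d A), x ∈ S → sh g x ∈ S)
    {a b : A} {v w : Fin d → ℕ} {t t' : Conf d A} (h : Lead S a b v t t') :
    Lead S a b (v + w) (sh (-emb w) t) (sh (-emb w) t') := by
  obtain ⟨ht, ht', ha, hb, hf, hl⟩ := h
  refine ⟨hS _ _ ht, hS _ _ ht', ?_, ?_, ?_, ?_⟩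
  · simp only [sh, emb_add]
    rw [add_neg_cancel_right, ha]
  · simp only [sh, emb_add]
    rw [add_neg_cancel_right, hb]
  · refine (hf.image (fun g => g + emb w)).subset ?_
    intro g hg
    exact ⟨g + -emb w, hg, by simp⟩
  · intro g hg
    obtain ⟨u, hu, hle⟩ := hl (g + -emb w) hg
    refine ⟨u + w, ?_, ?_⟩
    · rw [emb_add, ← hu]
      simp
    · have : toLex u + toLex w ≤ toLex v + toLex w := add_le_add_left hle _
      exact this

/-- Dickson's lemma: every set of `ℕ^d` has finitely many elements below all its elements. -/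
theorem exists_basis (U : Set (Fin d → ℕ)) :
    ∃ B : Set (Fin d → ℕ), B.Finite ∧ B ⊆ U ∧ ∀ v ∈ U, ∃ b ∈ B, b ≤ v := by
  refine ⟨{b | Minimal (· ∈ U) b}, ?_, fun b hb => hb.prop, ?_⟩
  · have hpwo : ({b | Minimal (· ∈ U) b} : Set (Fin d → ℕ)).IsPWO :=
      (Set.isPWO_of_wellQuasiOrderedLE _)
    have hanti : IsAntichain (· ≤ ·) ({b | Minimal (· ∈ U) b} : Set (Fin d → ℕ)) :=
      setOfPred_minimal_antichain _
    exact hanti.finite_of_partiallyWellOrderedOn hpwo
  · intro v hv
    obtain ⟨b, hbv, hb⟩ := exists_minimal_le_of_wellFoundedLT (· ∈ U) v hv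
    exact ⟨b, hb, hbv⟩

/-- All leading pairs have witnesses of bounded size. -/
theorem exists_radius_pair {S : Set (Conf d A)}
    (hS : ∀ (g : G d) (x : Conf d A), x ∈ S → sh g x ∈ S) (a b : A) :
    ∃ ρ : ℕ, ∀ v : Fin d → ℕ, (∃ t t', Lead S a b v t t') →
      ∃ t t', Lead S a b v t t' ∧ ∀ h ∈ diff t t', h - emb v ∈ ball d ρ := by
  classical
  obtain ⟨B, hBf, hBU, hB⟩ := exists_basis {v : Fin d → ℕ | ∃ t t', Lead S a b v t t'}
  have hw : ∀ v ∈ B, ∃ ρ : ℕ, ∃ t t', Lead S a b v t t' ∧ ∀ h ∈ diff t t', h - emb v ∈ ball d ρ := by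
    intro v hv
    obtain ⟨t, t', ht⟩ := hBU hv
    have hf := ht.2.2.2.2.1
    have hex : ∀ h : G d, ∃ n : ℕ, h - emb v ∈ ball d n := by
      intro h
      refine ⟨∑ i, ((h - emb v) i).natAbs, ?_⟩
      rw [mem_ball]
      intro i
      rw [Int.abs_eq_natAbs]
      exact_mod_cast Finset.single_le_sum (f := fun i => ((h - emb v) i).natAbs)
        (fun _ _ => Nat.zero_le _) (Finset.mem_univ i)
    choose n hn using hex
    refine ⟨hf.toFinset.sup n, t, t', ht, ?_⟩
    intro h hh
    have h1 : n h ≤ hf.toFinset.sup n := Finset.le_sup (f := n) (hf.mem_toFinset.2 hh)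
    have h2 := hn h
    rw [mem_ball] at h2 ⊢
    intro i
    exact (h2 i).trans (by exact_mod_cast h1)
  choose! ρ t t' ht hρ using hw
  refine ⟨hBf.toFinset.sup ρ, ?_⟩
  intro v hv
  obtain ⟨b0, hb0, hle⟩ := hB v hv
  have h1 := lead_shift hS (w := v - b0) (ht b0 hb0)
  have h2 : b0 + (v - b0) = v := by
    funext i
    have hi : b0 i ≤ v i := hle i
    simp only [Pi.add_apply, Pi.sub_apply]
    omega
  rw [h2] at h1
  refine ⟨_, _, h1, ?_⟩
  intro h hh
  have h3 := hρ b0 hb0 (h + -emb (v - b0)) hh
  have h4 : h + -emb (v - b0) - emb b0 = h - emb v := by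
    rw [← h2, emb_add, h2]
    abel
  rw [h4] at h3
  have h5 : ρ b0 ≤ hBf.toFinset.sup ρ := Finset.le_sup (f := ρ) (hBf.mem_toFinset.2 hb0)
  rw [mem_ball] at h3 ⊢
  intro i
  exact (h3 i).trans (by exact_mod_cast h5)

theorem exists_radius [Finite A] {S : Set (Conf d A)}
    (hS : ∀ (g : G d) (x : Conf d A), x ∈ S → sh g x ∈ S) :
    ∃ ρ : ℕ, ∀ (a b : A) (v : Fin d → ℕ), (∃ t t', Lead S a b v t t') →
      ∃ t t', Lead S a b v t t' ∧ ∀ h ∈ diff t t', h - emb v ∈ ball d ρ := by
  classical
  cases nonempty_fintype A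
  choose ρ hρ using fun p : A × A => exists_radius_pair hS p.1 p.2
  refine ⟨Finset.univ.sup ρ, ?_⟩
  intro a b v hv
  obtain ⟨t, t', h1, h2⟩ := hρ (a, b) v hv
  refine ⟨t, t', h1, fun h hh => ?_⟩
  have h3 := h2 h hh
  have h5 : ρ (a, b) ≤ Finset.univ.sup ρ := Finset.le_sup (f := ρ) (Finset.mem_univ _)
  rw [mem_ball] at h3 ⊢
  intro i
  exact (h3 i).trans (by exact_mod_cast h5)

/-- Chains of moves from `s'` to `s` when all differences lie in `ℕ^d`. -/
theorem chain_nonneg {S : Set (Conf d A)} {m : A → A → A → A} (hm : IsMaltsev m)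
    (hcl : Stable m S) {ρ : ℕ}
    (hρ : ∀ (a b : A) (v : Fin d → ℕ), (∃ t t', Lead S a b v t t') →
      ∃ t t', Lead S a b v t t' ∧ ∀ h ∈ diff t t', h - emb v ∈ ball d ρ)
    (v : Lex (Fin d → ℕ)) : ∀ s ∈ S, ∀ s' ∈ S, (diff s s').Finite →
      (∀ h ∈ diff s s', ∃ u : Fin d → ℕ, h = emb u ∧ toLex u ≤ v) →
      Relation.ReflTransGen (Move S ρ) s' s := by
  induction v using WellFoundedLT.induction with
  | ind v ih =>
    intro s hs s' hs' hf hv
    rcases (diff s s').eq_empty_or_nonempty with he | hne
    · have : s = s' := by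
        funext g
        by_contra hg
        have : g ∈ diff s s' := hg
        rw [he] at this
        exact this
      rw [this]
    · -- the leading position
      have hfu : {u : Fin d → ℕ | emb u ∈ diff s s'}.Finite := hf.preimage emb_injective.injOn
      have hneu : {u : Fin d → ℕ | emb u ∈ diff s s'}.Nonempty := by
        obtain ⟨h, hh⟩ := hne
        obtain ⟨u, hu, _⟩ := hv h hh
        exact ⟨u, by rw [mem_ofPred_eq, ← hu]; exact hh⟩
      obtain ⟨u0, hu0, hmax⟩ := Set.exists_max_image _ (fun u : Fin d → ℕ => toLex u) hfu hneu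
      have hle : ∀ h ∈ diff s s', ∃ u : Fin d → ℕ, h = emb u ∧ toLex u ≤ toLex u0 := by
        intro h hh
        obtain ⟨u, hu, _⟩ := hv h hh
        exact ⟨u, hu, hmax u (by rw [mem_ofPred_eq, ← hu]; exact hh)⟩
      have hu0v : toLex u0 ≤ v := by
        obtain ⟨u, hu, hle⟩ := hv _ hu0
        rw [emb_injective hu]
        exact hle
      obtain ⟨t, t', ⟨ht, ht', hta, htb, htf, htl⟩, hb⟩ := hρ (s (emb u0)) (s' (emb u0)) u0
        ⟨s, s', hs, hs', rfl, rfl, hf, hle⟩
      set s'' : Conf d A := fun g => m (t g) (t' g) (s' g) with hs''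
      have hs''S : s'' ∈ S := hcl t ht t' ht' s' hs'
      have hsub : diff s' s'' ⊆ diff t t' := by
        intro g hg hgt
        apply hg
        rw [hs'']
        simp only
        rw [hgt, (hm _ _).2]
      have hmove : Move S ρ s' s'' := ⟨hs', hs''S, emb u0, fun h hh => hb h (hsub hh)⟩
      have hval : s'' (emb u0) = s (emb u0) := by
        rw [hs'']
        simp only
        rw [hta, htb, (hm _ _).1]
      have hlt : ∀ h ∈ diff s s'', ∃ u : Fin d → ℕ, h = emb u ∧ toLex u < toLex u0 := by
        intro h hh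
        have hne0 : h ≠ emb u0 := by
          rintro rfl
          exact hh hval.symm
        have : ∃ u : Fin d → ℕ, h = emb u ∧ toLex u ≤ toLex u0 := by
          by_cases hht : h ∈ diff t t'
          · exact htl h hht
          · apply hle h
            intro he
            apply hh
            have h2 : s'' h = s' h := by
              by_contra hcon
              exact hht (hsub (fun e => hcon e.symm))
            rw [h2, he]
        obtain ⟨u, rfl, hu⟩ := this
        refine ⟨u, rfl, lt_of_le_of_ne hu ?_⟩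
        intro he
        apply hne0
        rw [toLex.injective he]
      have hf'' : (diff s s'').Finite := by
        refine (hf.union htf).subset ?_
        intro g hg
        by_contra hcon
        rw [mem_union, not_or] at hcon
        apply hg
        have h1 : s g = s' g := by
          by_contra h
          exact hcon.1 h
        have h2 : s'' g = s' g := by
          by_contra hc
          exact hcon.2 (hsub (fun e => hc e.symm))
        rw [h1, h2]
      refine Relation.ReflTransGen.head hmove ?_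
      rcases (diff s s'').eq_empty_or_nonempty with he | hne''
      · have : s = s'' := by
          funext g
          by_contra hg
          have : g ∈ diff s s'' := hg
          rw [he] at this
          exact this
        rw [← this]
      · have hfu' : {u : Fin d → ℕ | emb u ∈ diff s s''}.Finite :=
          hf''.preimage emb_injective.injOn
        have hneu' : {u : Fin d → ℕ | emb u ∈ diff s s''}.Nonempty := by
          obtain ⟨h, hh⟩ := hne''
          obtain ⟨u, hu, _⟩ := hlt h hh
          exact ⟨u, by rw [mem_ofPred_eq, ← hu]; exact hh⟩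
        obtain ⟨u1, hu1, hmax1⟩ := Set.exists_max_image _ (fun u : Fin d → ℕ => toLex u) hfu' hneu'
        have hu1lt : toLex u1 < v := by
          obtain ⟨u, hu, hlt1⟩ := hlt _ hu1
          rw [emb_injective hu]
          exact lt_of_lt_of_le hlt1 hu0v
        refine ih (toLex u1) hu1lt s hs s'' hs''S hf'' ?_
        intro h hh
        obtain ⟨u, hu, _⟩ := hlt h hh
        exact ⟨u, hu, hmax1 u (by rw [mem_ofPred_eq, ← hu]; exact hh)⟩

theorem Move.shift {S : Set (Conf d A)}
    (hS : ∀ (g : G d) (x : Conf d A), x ∈ S → sh g x ∈ S) {ρ : ℕ} {x y : Conf d A}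
    (h : Move S ρ x y) (k : G d) : Move S ρ (sh k x) (sh k y) := by
  obtain ⟨hx, hy, g, hg⟩ := h
  refine ⟨hS _ _ hx, hS _ _ hy, g - k, ?_⟩
  intro a ha
  have h1 := hg (a + k) ha
  have h2 : a + k - g = a - (g - k) := by abel
  rwa [h2] at h1

/-- Any two configurations of `S` which differ in finitely many cells are joined by bounded
moves inside `S`. -/
theorem exists_pivot [Finite A] {S : Set (Conf d A)}
    (hS : ∀ (g : G d) (x : Conf d A), x ∈ S → sh g x ∈ S) {m : A → A → A → A} (hm : IsMaltsev m)
    (hcl : Stable m S) : ∃ ρ : ℕ, ∀ s ∈ S, ∀ s' ∈ S, (diff s s').Finite →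
      Relation.ReflTransGen (Move S ρ) s' s := by
  classical
  obtain ⟨ρ, hρ⟩ := exists_radius hS
  refine ⟨ρ, ?_⟩
  intro s hs s' hs' hf
  -- translate the differences into `ℕ^d`
  obtain ⟨c, hc⟩ : ∃ c : ℕ, ∀ h ∈ diff s s', ∀ i, |h i| ≤ (c : ℤ) := by
    refine ⟨hf.toFinset.sup (fun h => ∑ i, (h i).natAbs), ?_⟩
    intro h hh i
    rw [Int.abs_eq_natAbs]
    have h1 : (h i).natAbs ≤ ∑ i, (h i).natAbs :=
      Finset.single_le_sum (f := fun i => (h i).natAbs) (fun _ _ => Nat.zero_le _)
        (Finset.mem_univ i)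
    have h2 : ∑ i, (h i).natAbs ≤ hf.toFinset.sup (fun h : G d => ∑ i, (h i).natAbs) :=
      Finset.le_sup (f := fun h : G d => ∑ i, (h i).natAbs) (hf.mem_toFinset.2 hh)
    exact_mod_cast h1.trans h2
  set k : G d := fun _ => -(c : ℤ) with hk
  have hsub : ∀ h ∈ diff (sh k s) (sh k s'), ∃ u : Fin d → ℕ, h = emb u ∧ ∀ i, u i ≤ 2 * c := by
    intro h hh
    have h1 := hc (h + k) hh
    refine ⟨fun i => (h i).toNat, ?_, ?_⟩
    · funext i
      have := h1 i
      rw [abs_le] at this
      simp only [hk, Pi.add_apply] at this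
      simp only [emb]
      omega
    · intro i
      have := h1 i
      rw [abs_le] at this
      simp only [hk, Pi.add_apply] at this
      simp only
      omega
  have hf' : (diff (sh k s) (sh k s')).Finite := by
    refine (hf.image (fun g => g - k)).subset ?_
    intro g hg
    exact ⟨g + k, hg, by simp⟩
  have key : Relation.ReflTransGen (Move S ρ) (sh k s') (sh k s) := by
    refine chain_nonneg hm hcl hρ (toLex (fun _ => 2 * c)) _ (hS _ _ hs) _ (hS _ _ hs') hf' ?_
    intro h hh
    obtain ⟨u, hu, hle⟩ := hsub h hh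
    exact ⟨u, hu, Pi.toLex_monotone hle⟩
  have back : ∀ x y : Conf d A, Relation.ReflTransGen (Move S ρ) x y →
      Relation.ReflTransGen (Move S ρ) (sh (-k) x) (sh (-k) y) := by
    intro x y h
    induction h with
    | refl => exact Relation.ReflTransGen.refl
    | tail _ hmv ih => exact ih.tail (hmv.shift hS (-k))
  have h3 := back _ _ key
  rw [sh_sh, sh_sh, neg_add_cancel, sh_zero, sh_zero] at h3
  exact h3

/-- Cutting off a chain of bounded moves outside a neighbourhood of `K`. -/
theorem cut_off {S : Set (Conf d A)} {m : A → A → A → A} (hm : IsMaltsev m)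
    (hcl : Stable m S) {ρ : ℕ} {s' : Conf d A} (hs' : s' ∈ S) (K : Set (G d)) (u : Conf d A)
    (h : Relation.ReflTransGen (Move S ρ) s' u) :
    ∃ z ∈ S, (∀ g ∈ K, z g = u g) ∧ (diff z s').Finite ∧
      ∀ h ∈ diff z s', ∃ g ∈ K, h - g ∈ ball d (2 * ρ) := by
  classical
  induction h with
  | refl =>
    refine ⟨s', hs', fun g _ => rfl, ?_, fun h hh => absurd rfl hh⟩
    have : diff s' s' = ∅ := by
      ext g
      simp [diff]
    rw [this]
    exact Set.finite_empty
  | @tail b c _ hbc ih =>
    obtain ⟨z, hz, hzK, hzf, hzd⟩ := ih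
    obtain ⟨hb, hc, g0, hg0⟩ := hbc
    by_cases hmeet : ∃ k ∈ K, k ∈ diff b c
    · obtain ⟨k, hkK, hk⟩ := hmeet
      have hsub : diff (fun g => m (c g) (b g) (z g)) s' ⊆ diff b c ∪ diff z s' := by
        intro g hg
        by_contra hcon
        rw [mem_union, not_or] at hcon
        apply hg
        have h1 : b g = c g := by
          by_contra h
          exact hcon.1 h
        have h2 : z g = s' g := by
          by_contra h
          exact hcon.2 h
        simp only
        rw [h1, h2, (hm _ _).2]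
      have hfin : (diff b c).Finite := by
        refine ((ball d ρ).finite_toSet.image (fun g => g + g0)).subset ?_
        intro a ha
        exact ⟨a - g0, hg0 a ha, by simp⟩
      refine ⟨fun g => m (c g) (b g) (z g), hcl c hc b hb z hz, ?_, (hfin.union hzf).subset hsub,
        ?_⟩
      · intro g hg
        simp only
        rw [hzK g hg, (hm _ _).1]
      · intro a ha
        rcases hsub ha with h1 | h1
        · refine ⟨k, hkK, ?_⟩
          have h2 := hg0 a h1
          have h3 := hg0 k hk
          rw [mem_ball] at h2 h3 ⊢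
          intro i
          have e1 := abs_le.1 (h2 i)
          have e2 := abs_le.1 (h3 i)
          simp only [Pi.sub_apply] at e1 e2 ⊢
          rw [abs_le]
          push_cast
          constructor <;> linarith [e1.1, e1.2, e2.1, e2.2]
        · exact hzd a h1
    · refine ⟨z, hz, ?_, hzf, hzd⟩
      intro g hg
      rw [hzK g hg]
      by_contra hne
      exact hmeet ⟨g, hg, hne⟩

end Pool.Agent.H89.MAL
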