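import Pool.Agent.H62.BS.Defs
import Pool.Agent.H89.MAL.SFT

/-!
Statement-level definitions for `MP_6540cb_lc`: polymorphisms of sets of configurations.
-/

open MeasureTheory Topology Filter Set
open Pool.Agent.H62.BS

namespace Pool.Agent.H89.MAL

variable {d : ℕ} {A : Type}

/-- `m` is a Maltsev operation: `m(x,y,y) = x = m(y,y,x)`. -/
def IsMaltsev (m : A → A → A → A) : Prop := ∀ x y, m x y y = x ∧ m y y x = x

/-- The set `S` of configurations is closed under the cellwise application of `m`. -/
def Stable (m : A → A → A → A) (S : Set (Conf d A)) : Prop :=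
  ∀ x ∈ S, ∀ y ∈ S, ∀ z ∈ S, (fun g => m (x g) (y g) (z g)) ∈ S

/-- `f` is a near-unanimity operation: `f(x,…,x,y,x,…,x) = x` for every place of `y`. -/
def IsNU {n : ℕ} (f : (Fin n → A) → A) : Prop :=
  ∀ (i : Fin n) (x y : A), f (Function.update (fun _ => x) i y) = x

/-- The set `S` of configurations is closed under the cellwise application of `f`. -/
def StableNU {n : ℕ} (f : (Fin n → A) → A) (S : Set (Conf d A)) : Prop :=
  ∀ x : Fin n → Conf d A, (∀ i, x i ∈ S) → (fun g => f fun i => x i g) ∈ S

end Pool.Agent.H89.MAL
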